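import Pool.Agent.Work.MP_c3e920_pr.Main

open MeasureTheory ProbabilityTheory Filter Topology
open scoped ENNReal NNReal

namespace Pool.Agent.Results.MP_c3e920_pr.SlowExplodingPath

open Pool.Agent.SFP

universe u

/-- the exponential law is in the class -/
lemma logSlowAtZero_exp : LogSlowAtZero (expMeasure 1) := by
  have hcdf : ∀ t : ℝ, 0 ≤ t → (expMeasure 1).real (Set.Iic t) = 1 - Real.exp (-t) := by
    intro t ht
    haveI : IsProbabilityMeasure (expMeasure 1) := isProbabilityMeasure_expMeasure one_pos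
    rw [← cdf_eq_real, cdf_expMeasure_eq one_pos, if_pos ht, one_mul]
  have hpos : ∀ t : ℝ, 0 < t → 0 < 1 - Real.exp (-t) := by
    intro t ht
    have : Real.exp (-t) < 1 := by rw [Real.exp_lt_one_iff]; linarith
    linarith
  refine ⟨?_, ?_, ?_⟩
  · haveI : IsProbabilityMeasure (expMeasure 1) := isProbabilityMeasure_expMeasure one_pos
    have h0 := hcdf 0 le_rfl
    rw [neg_zero, Real.exp_zero, sub_self, measureReal_def, ENNReal.toReal_eq_zero_iff] at h0
    exact h0.resolve_right (measure_ne_top _ _)
  · intro t ht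
    rw [hcdf t ht.le]
    exact hpos t ht
  · have hlog : Tendsto (fun t : ℝ => Real.log (1 - Real.exp (-t))) (𝓝[>] 0) atBot := by
      apply Real.tendsto_log_nhdsGT_zero.comp
      rw [tendsto_nhdsWithin_iff]
      constructor
      · have : Tendsto (fun t : ℝ => 1 - Real.exp (-t)) (𝓝 0) (𝓝 (1 - Real.exp (-0))) := by
          apply Continuous.tendsto
          fun_prop
        rw [neg_zero, Real.exp_zero, sub_self] at this
        exact this.mono_left nhdsWithin_le_nhds
      · filter_upwards [self_mem_nhdsWithin] with t ht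
        exact hpos t ht
    have hnum : Tendsto (fun t : ℝ => Real.log (1 + Real.exp (-t))) (𝓝[>] 0)
        (𝓝 (Real.log (1 + Real.exp (-0)))) := by
      have : ContinuousAt (fun t : ℝ => Real.log (1 + Real.exp (-t))) 0 := by
        apply ContinuousAt.log
        · fun_prop
        · positivity
      exact this.tendsto.mono_left nhdsWithin_le_nhds
    have hq := (hnum.div_atBot hlog).const_add 1
    rw [add_zero] at hq
    refine hq.congr' ?_
    filter_upwards [self_mem_nhdsWithin, hlog.eventually_lt_atBot 0] with t ht hneg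
    have ht0 : 0 < t := ht
    rw [hcdf t ht0.le, hcdf (2 * t) (by linarith)]
    have hp := hpos t ht0
    have hfac : 1 - Real.exp (-(2 * t)) = (1 - Real.exp (-t)) * (1 + Real.exp (-t)) := by
      have : Real.exp (-(2 * t)) = Real.exp (-t) * Real.exp (-t) := by
        rw [← Real.exp_add]; congr 1; ring
      rw [this]; ring
    rw [hfac, Real.log_mul hp.ne' (by positivity), add_div, div_self hneg.ne]

/-- The conjectured doubly exponential growth of the shortest exploding path in weighted
scale-free percolation fails, for all parameters, for every edge-weight law `ν` on the positive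
reals such that minus the logarithm of its distribution function varies slowly at zero; the
standard exponential law is such a law. -/
theorem result :
    LogSlowAtZero (expMeasure 1) ∧
    ∀ (d : ℕ) (_ : 1 ≤ d) (α lam τ : ℝ) (_ : (d : ℝ) < α) (_ : 0 < lam) (_ : 1 < τ)
      (_ : 1 < α * (τ - 1) / d) (_ : α * (τ - 1) / d < 2)
      (μ : Measure ℝ) [IsProbabilityMeasure μ] (_ : μ (Set.Iio 1) = 0)
      (ell : ℝ → ℝ) (_ : SlowlyVarying ell)
      (_ : ∀ t : ℝ, 1 ≤ t → μ.real (Set.Ioi t) = ell t * t ^ (-(τ - 1)))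
      (ν : Measure ℝ) [IsProbabilityMeasure ν] (_ : LogSlowAtZero ν),
      explosionIntegral ν < ∞ ∧
      ∀ (Ω : Type u) [MeasurableSpace Ω] (P : Measure Ω) [IsProbabilityMeasure P]
        (W : (Fin d → ℤ) → Ω → ℝ) (U L : Sym2 (Fin d → ℤ) → Ω → ℝ),
        IsWeightedSFP P W U L μ ν →
        ∀ᵐ ω ∂P,
          (∃ v : ℕ → Fin d → ℤ, IsShortestExploding α lam (fun x => W x ω) (fun e => U e ω)
            (fun e => L e ω) v) ∧
          ∀ v : ℕ → Fin d → ℤ, IsShortestExploding α lam (fun x => W x ω) (fun e => U e ω)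
            (fun e => L e ω) v →
            ∀ b : ℝ, 1 < b → ∀ᶠ n in atTop, eucl (v n) < Real.exp (b ^ n) := by
  refine ⟨logSlowAtZero_exp, ?_⟩
  intro d hd α lam τ hα hlam hτ hγ1 hγ2 μ _ hμ1 ell hell hμ ν _ hν
  refine ⟨explosionIntegral_lt_top hν, ?_⟩
  intro Ω _ P _ W U L h
  have hd0 : (0 : ℝ) < d := by exact_mod_cast hd
  have hα0 : 0 < α := by linarith
  refine main h hd hα hlam (β := τ - 1) ?_ ?_ hell hμ1 hμ hν
  · rw [div_lt_iff₀ hα0]
    rw [lt_div_iff₀ hd0] at hγ1
    linarith
  · rw [div_lt_iff₀ hd0] at hγ2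
    rw [← mul_div_assoc, lt_div_iff₀ hα0]
    linarith

end Pool.Agent.Results.MP_c3e920_pr.SlowExplodingPath
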